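import Pool.Agent.H995.PS.Ent

/-!
# First excited states of gapped Hamiltonians with product ground states, far from all PEPS

The Hamiltonian is that of `SpectralHypothesis`: a classical nearest neighbour Hamiltonian with two
phases. On the torus of side `L` the ground state is a product state, with gap at least `1`; the first
excited level, at most `4`, contains for every labelling of the sites by `1..q` a basis state. In a
superposition of them the labels of the left and of the right half of the torus are maximally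
entangled. The Schmidt rank of a PEPS vector of bond dimension `D` is at most `D ^ (2 L)`, so its
overlap with this vector is exponentially small in `L ^ 2` unless `D` is exponentially large in `L`.
-/

set_option autoImplicit false

open scoped BigOperators Matrix
open Pool.Agent.TH235.PP

namespace Pool.Agent.Results.MP_953b23_mp.LowLyingStates

/-- a vector near a unit vector has a large overlap with it -/
theorem overlap_of_near {n : Type*} [Fintype n] [DecidableEq n] (Φ φ : n → ℂ) (hΦ : normSq Φ = 1)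
    (h : Real.sqrt (normSq (φ - Φ)) ≤ 1 / 2) : 3 * normSq φ ≤ 4 * ‖ip φ Φ‖ ^ 2 := by
  have h0 : normSq (φ - Φ) ≤ 1 / 4 := by
    have h1 : 0 ≤ normSq (φ - Φ) := Finset.sum_nonneg fun _ _ => by positivity
    have h2 := Real.sq_sqrt h1
    nlinarith [Real.sqrt_nonneg (normSq (φ - Φ))]
  have h1 : normSq (φ - Φ) = normSq φ - 2 * (ip φ Φ).re + normSq Φ := by
    unfold normSq ip
    rw [Complex.re_sum, Finset.mul_sum, ← Finset.sum_sub_distrib, ← Finset.sum_add_distrib]
    refine Finset.sum_congr rfl fun s _ => ?_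
    rw [Pi.sub_apply, ← Complex.normSq_eq_norm_sq, ← Complex.normSq_eq_norm_sq,
      ← Complex.normSq_eq_norm_sq, Complex.normSq_sub]
    have h2 : (φ s * (starRingEnd ℂ) (Φ s)).re = ((starRingEnd ℂ) (φ s) * Φ s).re := by
      simp only [Complex.mul_re, Complex.conj_re, Complex.conj_im]
      ring
    rw [h2]
    ring
  rw [hΦ] at h1
  have h2 : (ip φ Φ).re ≤ ‖ip φ Φ‖ := Complex.re_le_norm _
  have h3 : 0 ≤ normSq φ := Finset.sum_nonneg fun _ _ => by positivity
  have h4 : normSq φ + 3 / 4 ≤ 2 * ‖ip φ Φ‖ := by linarith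
  nlinarith [norm_nonneg (ip φ Φ), sq_nonneg (normSq φ - 3 / 4)]

/-- There is a number `w` such that for every `q ≥ 2` there is an interaction `h` on the `2 × 2` box
of sites with `w q + 1` states, diagonal in the product basis and with entries in `{0, ..., 10}`, such
that for EVERY `L ≥ 1` the Hamiltonian `ham h L` has a simple lowest eigenvalue `0` with a product
eigenvector, its next eigenvalue is an integer `m L` with `1 ≤ m L ≤ 4`, and there is a unit
eigenvector `Φ L` for `m L` with `|⟨φ, Φ L⟩|² q ^ (L ⌊L/2⌋) ≤ D ^ (2 L) ‖φ‖²` for all `D` and all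
PEPS vectors `φ` of bond dimension `D`; in particular `3 q ^ (L ⌊L/2⌋) ≤ 4 D ^ (2 L)` if `φ` is
within `1 / 2` of `Φ L`. -/
theorem result : ∃ w : ℕ, ∀ q : ℕ, 2 ≤ q →
    ∃ (h : BoxOp (w * q + 1) 2) (Ψ Φ : ∀ L : ℕ, (Site L → Fin (w * q + 1)) → ℂ) (m : ℕ → ℕ),
      (∀ s t, s ≠ t → h s t = 0) ∧ (∀ s, ∃ k : ℕ, k ≤ 10 ∧ h s s = k) ∧
      ∀ (L : ℕ) [NeZero L],
        normSq (Ψ L) = 1 ∧ IsPEPS 1 (Ψ L) ∧ ham h L *ᵥ Ψ L = 0 ∧
        IsGappedGround (ham h L) 1 (Ψ L) ∧ 1 ≤ m L ∧ m L ≤ 4 ∧
        (∀ (E : ℝ) (φ : (Site L → Fin (w * q + 1)) → ℂ), φ ≠ 0 →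
          ham h L *ᵥ φ = (E : ℂ) • φ → E = 0 ∨ (m L : ℝ) ≤ E) ∧
        normSq (Φ L) = 1 ∧ ham h L *ᵥ Φ L = (m L : ℂ) • Φ L ∧
        ∀ (D : ℕ) (φ : (Site L → Fin (w * q + 1)) → ℂ), IsPEPS D φ →
          ‖ip φ (Φ L)‖ ^ 2 * (q : ℝ) ^ (L * (L / 2)) ≤ (D : ℝ) ^ (2 * L) * normSq φ ∧
          (Real.sqrt (normSq (φ - Φ L)) ≤ 1 / 2 → 3 * q ^ (L * (L / 2)) ≤ 4 * D ^ (2 * L)) := by
  classical
  refine ⟨H995.PS.nt, fun q hq => ?_⟩
  have hlev := fun (L : ℕ) (hL : NeZero L) => @H995.PS.level L hL
  choose m t h1 h4 ht hm using hlev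
  let k : Fin q := ⟨0, by omega⟩
  refine ⟨H995.PS.hq q, H995.PS.gs q,
    fun L => if hL : L = 0 then 0 else @H995.PS.ent q L ⟨hL⟩ (t L ⟨hL⟩) k,
    fun L => if hL : L = 0 then 0 else m L ⟨hL⟩, ?_, ?_, ?_⟩
  · intro s t hst
    exact Matrix.diagonal_apply_ne _ hst
  · intro s
    refine ⟨H995.PS.eb q s, ?_, Matrix.diagonal_apply_eq _ _⟩
    have h1 := H995.PS.eh_le (H995.PS.lbl q (s (0, 0))) (H995.PS.lbl q (s (1, 0)))
    have h2 := H995.PS.ev_le (H995.PS.lbl q (s (0, 0))) (H995.PS.lbl q (s (0, 1)))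
    unfold H995.PS.eb
    omega
  · intro L hL
    have hL0 : L ≠ 0 := hL.out
    simp only [dif_neg hL0]
    have hn : normSq (H995.PS.ent (t L hL) k) = 1 := H995.PS.ent_norm _ _
    refine ⟨H995.PS.gs_norm, H995.PS.gs_peps, H995.PS.gs_eig, H995.PS.gs_gapped, h1 L hL, h4 L hL,
      fun E φ h0 h => H995.PS.eig_cases (hm L hL q) h0 h, hn, ?_, fun D φ hφ => ?_⟩
    · have := H995.PS.ent_eig (t L hL) k
      rw [ht L hL] at this
      exact this
    · have hb := H995.PS.ent_peps (t L hL) k hφ
      refine ⟨hb, fun hnear => ?_⟩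
      have h5 := overlap_of_near _ φ hn hnear
      have h6 : 0 < normSq φ := by
        have h7 : 0 ≤ normSq φ := Finset.sum_nonneg fun _ _ => by positivity
        rcases h7.lt_or_eq with h8 | h8
        · exact h8
        · exfalso
          have h9 : φ = 0 := by
            funext s
            have h10 := (Finset.sum_eq_zero_iff_of_nonneg (fun s _ => by positivity)).1 h8.symm s
              (Finset.mem_univ s)
            simpa using h10
          rw [h9, zero_sub] at hnear
          have h11 : normSq (-(H995.PS.ent (t L hL) k)) = 1 := by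
            rw [← hn]
            unfold normSq
            simp
          rw [h11, Real.sqrt_one] at hnear
          norm_num at hnear
      have h7 : 3 * (q : ℝ) ^ (L * (L / 2)) * normSq φ ≤ 4 * (D : ℝ) ^ (2 * L) * normSq φ := by
        have h8 : (0 : ℝ) ≤ (q : ℝ) ^ (L * (L / 2)) := by positivity
        nlinarith [mul_le_mul_of_nonneg_right h5 h8]
      have h8 := le_of_mul_le_mul_right h7 h6
      exact_mod_cast h8

end Pool.Agent.Results.MP_953b23_mp.LowLyingStates
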