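import Pool.Agent.H995.PS.Ham

/-!
# The hypothesis on the number of low-lying eigenstates does not follow from the gap

Two phases. A site is either in the state `A` or carries a tile of an aperiodic set of Wang tiles
and a free label in `1..q`. An adjacent pair costs `5` if exactly one of the two sites is in the state
`A`, and `1` if both carry tiles which do not match. The set of tiles tiles no torus, but on the torus
of every side `L` there is a configuration of tiles with at most four defects. So the product state `A`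
is the only ground state, with gap at least `1`, and the first excited level, which is at most `4`, has
the degeneracy at least `q ^ (L ^ 2)`.
-/

set_option autoImplicit false

open scoped BigOperators Matrix
open Pool.Agent.TH235.PP

namespace Pool.Agent.Results.MP_953b23_mp.SpectralHypothesis

/-- The multiplicity of `E` as an eigenvalue of `H`: the dimension of the eigenspace. -/
noncomputable def mult {n : Type} [Fintype n] [DecidableEq n] (H : Matrix n n ℂ) (E : ℂ) : ℕ :=
  Module.finrank ℂ (Module.End.eigenspace (Matrix.toLin' H) E)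

/-- There is a number `w` such that for every `q ≥ 2` there is an interaction `h` on the `2 × 2` box
of sites with `w q + 1` states, diagonal in the product basis and with entries in `{0, ..., 10}`, such
that for EVERY `L ≥ 1` the Hamiltonian `ham h L` has a simple lowest eigenvalue `0` with a product
eigenvector, its next eigenvalue is an integer `m` with `1 ≤ m ≤ 4`, and the multiplicity of `m` is at
least `q ^ (L ^ 2)`. -/
theorem result : ∃ w : ℕ, ∀ q : ℕ, 2 ≤ q →
    ∃ (h : BoxOp (w * q + 1) 2) (Ψ : ∀ L : ℕ, (Site L → Fin (w * q + 1)) → ℂ),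
      (∀ s t, s ≠ t → h s t = 0) ∧ (∀ s, ∃ k : ℕ, k ≤ 10 ∧ h s s = k) ∧
      ∀ (L : ℕ) [NeZero L],
        normSq (Ψ L) = 1 ∧ IsPEPS 1 (Ψ L) ∧ ham h L *ᵥ Ψ L = 0 ∧
        IsGappedGround (ham h L) 1 (Ψ L) ∧
        ∃ m : ℕ, 1 ≤ m ∧ m ≤ 4 ∧
          (∀ (E : ℝ) (φ : (Site L → Fin (w * q + 1)) → ℂ), φ ≠ 0 →
            ham h L *ᵥ φ = (E : ℂ) • φ → E = 0 ∨ (m : ℝ) ≤ E) ∧
          q ^ (L ^ 2) ≤ mult (ham h L) (m : ℂ) := by
  classical
  refine ⟨H995.PS.nt, fun q _ => ⟨H995.PS.hq q, H995.PS.gs q, ?_, ?_, ?_⟩⟩
  · intro s t hst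
    exact Matrix.diagonal_apply_ne _ hst
  · intro s
    refine ⟨H995.PS.eb q s, ?_, Matrix.diagonal_apply_eq _ _⟩
    have h1 := H995.PS.eh_le (H995.PS.lbl q (s (0, 0))) (H995.PS.lbl q (s (1, 0)))
    have h2 := H995.PS.ev_le (H995.PS.lbl q (s (0, 0))) (H995.PS.lbl q (s (0, 1)))
    unfold H995.PS.eb
    omega
  · intro L _
    obtain ⟨m, t, h1, h4, ht, hm⟩ := H995.PS.level L
    exact ⟨H995.PS.gs_norm, H995.PS.gs_peps, H995.PS.gs_eig, H995.PS.gs_gapped, m, h1, h4,
      fun E φ h0 h => H995.PS.eig_cases (hm q) h0 h, H995.PS.mult t ht⟩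

end Pool.Agent.Results.MP_953b23_mp.SpectralHypothesis
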